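import Pool.Agent.Results.MP_6e1a06_nt.BackwardOrbits
import Pool.Agent.Y152.RP.Fam

/-!
# MP_e573c6_ag: one-parameter families of curves in products of modular curves with four degenerate
members: no atypical points on all but finitely many members with parameters in a backward orbit

The Shimura variety `Y(1)^n` is identified with `ℂ^n` by the elliptic modular function
`jj = j = E₄³ / Δ`. The Shimura varieties are the products of `n` modular curves of any levels, and
their images in `Y(1)^n`; `n` is arbitrary.

**Families** (as in the starting file `CurveFamilies`). Let `K ⊂ ℂ` be a countable field. We consider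
algebraic families `X_t` of curves in `Y(1)^n` with one parameter `t`, given by
* a family `B_t ⊆ P^N` of projective algebraic curves, defined by forms `G k` with coefficients in
  `K[t]`,
* quotients `f_i = A_i / B_i` of forms of the same degree `d_i` with coefficients in `K[t]`,
* functions `s_i` integral over `K[j]`, `R_i (s_i, j) = 0` with `R_i` monic in the first variable
  (level one: `R_i = S - J`, `s_i = j`; in general modular functions of any level without poles
  in the upper half plane), and polynomials `c_i ∈ K[t]`:
`X_t = {x | ∃ y ∈ B_t, ∃ s, ∀ i, R_i (s_i, x_i) = 0, c_i (t) s_i = A_i (y) / B_i (y)}`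
(`scaledImage`), the image of a family of curves in a product of modular curves.

**Parameters** (as in the starting file `MP_6e1a06_nt.BackwardOrbits`). Let `φ_1, …, φ_r` and `g` be
polynomials with integral coefficients such that all the composites `g ∘ φ_{i_1} ∘ … ∘ φ_{i_m}` are
irreducible, and `deg g · deg φ_i ≥ 2` for all `i`. The backward orbit of the roots of `g` is the set
of the complex numbers `t` with `g (φ_{i_1} (… (φ_{i_m} (t)))) = 0` for some word `i_1 … i_m`
(`InBackwardOrbit`); for `r = 1` and `g = X - β` these are the iterated preimages of `β` under a
polynomial map. These are algebraic numbers of unbounded degree and (for `deg φ_i ≥ 2`) of bounded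
height. A rational number `α` is called wandering if for every `y` there are only finitely many words
with `φ_{i_1} (… (φ_{i_m} (α))) = y` (for `r = 1`: `α` is not preperiodic).

The family degenerates at the wandering rational values `t = α_1, …, α_M` of the parameter in the
following sense:
* no point of `B_{α_l}` lies on two of the divisors of the `f_i` (at `t = α_l`), and
* the `c_i` have zeros at `α_l`, of orders `e_{l i} > 0`, and these orders are independent in pairs:
  `q e_{l i} e_{l j} e_{l' i} e_{l' j}` is not a square for `l ≠ l'`, `i ≠ j`, `1 ≤ q ≤ T^8`, where
  `T` bounds the degrees of the `R_i` (`T = 1` for level one).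

**Theorem.** If `M ≥ 4` then for all but finitely many `t` in the backward orbit the set `X_t` has no
point at all on special subvarieties of codimension at least two, strongly special or not,
`atyp(X_t) = ∅`. The constant coordinates of the special subvarieties can be special points or
integral over the ring generated by any given finite subset `Γ` of `K`.

The number of degenerate members does not depend on `n`, and the degrees of the parameters are
unbounded. No large Galois orbits hypothesis is used. The starting file `CurveFamilies` has parameters
of bounded degree, radicals and roots of unity. In the starting file `MP_6e1a06_nt.BackwardOrbits` three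
degenerate members suffice, but there the orders have to be independent on polygons: the products of
the orders along the closed polygons in the complete graph on the coordinates, with sides in any
number of the degenerate members, must not be squares. Here only conditions on two coordinates and
two degenerate members at a time are imposed.

The proof combines the theorem on families `Pool.Agent.Y152.RP.Fam.family` of the starting library with
the arithmetic of `Pool.Agent.V1138.BO` (also of the starting library): if `α` is wandering then for all
but finitely many words the value at `α` of the minimal polynomial `g ∘ φ_{i_1} ∘ … ∘ φ_{i_m}` of the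
parameter has a prime factor larger than a given number.
-/

set_option autoImplicit false

namespace Pool.Agent.Results.MP_e573c6_ag.BackwardOrbits

open MvPolynomial
open Pool.Agent.Y152.RP.Fam (SpecialVariety InGeneralPosition scaledImage IndependentExponents)
open Pool.Agent.Results.MP_6e1a06_nt.BackwardOrbits (InBackwardOrbit IrreducibleComposites
  Wandering)

/-- The points of `X` on special subvarieties of codimension at least two (with constant coordinates
which are special points or integral over `Γ`). -/
def atyp (Γ : Finset ℂ) {n : ℕ} (X : Set (Fin n → ℂ)) : Set (Fin n → ℂ) :=
  {x | x ∈ X ∧ ∃ (r : ℕ) (Z : SpecialVariety (algebraMap (Algebra.adjoin ℤ (Γ : Set ℂ)) ℂ) n r),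
    r + 2 ≤ n ∧ x ∈ Z.locus}

/-- One-parameter families of curves which degenerate at four wandering rational parameters, with
orders independent in pairs: all but finitely many of the members with parameters in the backward
orbit have no atypical points. -/
theorem result (K : Subfield ℂ) [Countable K] (κ : Type) [Finite κ] (N n M T : ℕ)
    (G : κ → MvPolynomial (Fin (N + 1)) (Polynomial K)) (hG : ∀ k, ∃ e, (G k).IsHomogeneous e)
    (A B : Fin n → MvPolynomial (Fin (N + 1)) (Polynomial K)) (δ : Fin n → ℕ)
    (hA : ∀ i, (A i).IsHomogeneous (δ i)) (hB : ∀ i, (B i).IsHomogeneous (δ i))
    (R : Fin n → Polynomial (Polynomial K)) (hR : ∀ i, (R i).Monic)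
    (hT : ∀ i u w, ((R i).coeff u).coeff w ≠ 0 → u ≤ T ∧ w ≤ T)
    (c : Fin n → Polynomial K) (α : Fin M → ℚ)
    (hind : IndependentExponents T fun l i => (c i).rootMultiplicity ((α l : ℚ) : K))
    (hpos : ∀ l, InGeneralPosition ((α l : ℚ) : ℂ) 1 G A B) (Γ : Finset ℂ)
    (hΓ : ∀ γ ∈ Γ, γ ∈ K) (hM : 4 ≤ M)
    (r : ℕ) (φ : Fin r → Polynomial ℤ) (g : Polynomial ℤ) (hφ : IrreducibleComposites φ g)
    (hα : ∀ l, Wandering φ (α l)) :
    {t : ℂ | InBackwardOrbit φ g t ∧ atyp Γ (scaledImage t G A B R c) ≠ ∅}.Finite := by
  have h := (Pool.Agent.Y152.RP.Fam.family K κ N n 1 M T G hG A B δ hA hB R hR hT c α hind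
    hpos Γ hΓ {t | InBackwardOrbit φ g t}
      (fun t ht => Pool.Agent.V1138.BO.alg_of_backward φ g hφ.1 t ht)).2 rfl hM fun D =>
        Pool.Agent.V1138.BO.finite_badB D hM α φ g hφ.2 hφ.1 hα
  refine h.subset ?_
  rintro t ⟨ht, hne⟩
  obtain ⟨x, hx, r', Z, hr, hxZ⟩ := Set.nonempty_iff_ne_empty.2 hne
  exact ⟨ht, r', Z, hr, x, hx, hxZ⟩

end Pool.Agent.Results.MP_e573c6_ag.BackwardOrbits
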