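import Pool.Agent.Run7.h316.UN.Two
import Pool.Agent.Results.MP_e573c6_ag.RandomOrbits

/-!
# MP_e573c6_ag: Zilber-Pink for families of curves in `Y(1)^n` at algebraic parameters of all degrees with prime coefficients

The families `F`, the members `X_t = member F lam t ⊂ Y(1)^n`, and the property `ZilberPink Γ X_t` (only finitely many
points of `X_t` are on special subvarieties of codimension at least two, and each proper special subvariety contains only
finitely many points of `X_t`) are those of the starting file `FamiliesAlmostAllParameters`: one-parameter families of
curves, not necessarily isotrivial, of any genus and any degree, which tend to the cusp `(∞, ..., ∞)` for `t → ∞` in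
general position (`GoodOrigin F`). For example (`n = 2`) the families of the plane curves
`∑_{u ≤ a, v ≤ b} g_{uv} (1/t) t ^ (- u - v) x_1 ^ u x_2 ^ v = 0`, `g_{uv}` arbitrary polynomials with
`g_{00}, g_{a0}, g_{0b}, g_{ab} ≠ 0` at `0` and `∑ g_{uv} (0) y_1 ^ u y_2 ^ v` irreducible.

**Parameters.** `Controlled F lam Γ m u` (starting file `RandomOrbits`): the members `X_t` satisfy `ZilberPink` for all
algebraic numbers `t` of any degree `d ≥ 1` which are roots of some polynomial `f` with integral coefficients, of degree
`d`, whose leading coefficient is a multiple of `m`, and whose next coefficient divides a power of `u`. The other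
coefficients of `f` are arbitrary.

Here `m = λ(c)` and `u = μ(c)` are the values of two linear forms with integral coefficients, which are not proportional
(`Indep`), at the vectors of a family. Let `c w`, `w ∈ Ω`, be a family of integral vectors and `S M ⊂ Ω` finite sets;
`Usually`: for ALL such pairs `λ`, `μ` (in the given set), ALL families of curves `F`, `lam` and all finite sets `Γ` of
algebraic numbers the proportion of the `w ∈ S M` for which `Controlled F lam Γ (λ(c w)) (μ(c w))` is not true tends to
zero, `M → ∞`.

**Theorem.** (A) For all pairs of independent linear forms the property `Usually` is spread-robust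
(`Pool.Agent.Run7.h316.UN.SpreadRobust`): all spread families have it (the proportion of the vectors in a given class
modulo `q` is at most `C q ^ (-r) + o(1)` for all `q` prime to some number), metric sequences, random orbits of Zariski
dense groups, generalised polynomials.

(B) PRIMES. If moreover `λ` has at least two nonzero coefficients, the property `Usually` is unit-robust
(`Pool.Agent.Run7.h316.UN.UnitRobust`): it holds for the vectors of prime numbers `≤ M`, and for all families which are
spread over the vectors of units: the proportion of the vectors in a given class modulo `q` is at most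
`C φ(q) ^ (-r) + o(1)`, and almost no vectors have a coordinate which is not prime to `q`, for all `q` prime to some
number. For example for almost all triples of prime numbers `p`, `p'`, `p''` up to `M` the Zilber-Pink conjecture holds
for `X_t`, if `t` is of degree `d` and `(p - p') t ^ d + p'' t ^ (d - 1) + … = 0` with any integral coefficients. (If the
leading coefficient is a prime number, this is a consequence of the local criterion.)

The starting files treat boxes (`FamiliesAlmostAllParameters`), random orbits (`RandomOrbits`), metric sequences
(`MetricSequences`) and residues (`ResidueVectors`), for two different coordinates instead of two linear forms.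

Proof. `X_t` satisfies `ZilberPink` if `t` has a pole at a place over a prime `p`, larger than a bound that depends on the
family and `Γ` only, at which `t` generates an unramified extension of the completion; this follows from the theorems in
`Pool/Agent/Y92/ZX`; the local criterion `exists_bound` of `RandomOrbits` is used. For large `p` about the proportion
`1 / p` of the vectors of units modulo `p` satisfy `λ = 0` and `μ ≠ 0`. Therefore the set of the exceptional vectors is
unit null (`Pool.Agent.Run7.h316.UN.unitNull_bad2`), and pronull (`proNull_bad2`). Vectors of primes: the prime number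
theorem for arithmetic progressions (helper923). Metric sequences: `Pool.Agent.N24.KM` (helpers 24, 344, 617, 199, 764,
432, 286); random orbits: `Pool.Agent.N24.RW` (helpers 24, 123, 195, 300, 543, 765); generalised polynomials:
`Pool.Agent.N666.TM` (helper666); `Pool.Agent.N918.EQ` (helper918).
-/

set_option autoImplicit false

namespace Pool.Agent.Results.MP_e573c6_ag.PrimeParameters

open Pool.Agent.Results.MP_e573c6_ag.FamiliesAlmostAllParameters
open Pool.Agent.Results.MP_e573c6_ag.RandomOrbits (Controlled exists_bound)
open Pool.Agent.Run7.h316.UN (SpreadRobust UnitRobust TwoNonzero Indep Bad2 robust_bad2)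

/-- For all pairs of linear forms `λ`, `μ` in `L`, all families of curves `F`, `lam` in general position at infinity and all
finite sets `Γ` of algebraic numbers the proportion of the `w` in `S M` for which `Controlled F lam Γ (λ(c w)) (μ(c w))` is
not true tends to zero, `M → ∞`. -/
def Usually {ι : Type} [Fintype ι] (L : (ι → ℤ) → (ι → ℤ) → Prop) (Ω : Type) (S : ℕ → Finset Ω)
    (c : Ω → ι → ℤ) : Prop :=
  ∀ lm mu : ι → ℤ, L lm mu → ∀ (n : ℕ) (κ : Type) [Finite κ]
    (F : κ → MvPolynomial (Fin n × Bool) (Polynomial (algebraicClosure ℚ ℂ))), GoodOrigin F →
    ∀ lam : Fin n → Polynomial (algebraicClosure ℚ ℂ), (∀ l, 0 < (lam l).natDegree) →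
    ∀ Γ : Finset ℂ, (∀ γ ∈ Γ, IsAlgebraic ℚ γ) →
    ∀ ε : ℝ, 0 < ε → ∃ M₀ : ℕ, ∀ M : ℕ, M₀ ≤ M →
      (({w : Ω | w ∈ S M ∧ ¬ Controlled F lam (Γ : Set ℂ) (∑ i, lm i * c w i)
        (∑ i, mu i * c w i)}.ncard : ℕ) : ℝ) ≤ ε * (S M).card

/-- **Zilber-Pink for all families of curves in `Y(1)^n` in general position at infinity, at algebraic parameters of all
degrees whose first two coefficients are values of linear forms at vectors of primes, of spread families, metric sequences,
random orbits and generalised polynomials.** -/
theorem result (ι : Type) [Fintype ι] [DecidableEq ι] [Nonempty ι] :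
    SpreadRobust (Usually (ι := ι) Indep) ∧
      UnitRobust (Usually (ι := ι) fun lm mu => TwoNonzero lm ∧ Indep lm mu) := by
  have key := robust_bad2 (ι := ι)
  have hconv : ∀ (L : (ι → ℤ) → (ι → ℤ) → Prop) (Ω : Type) (S : ℕ → Finset Ω) (c : Ω → ι → ℤ),
      (∀ lm mu : ι → ℤ, L lm mu → ∀ D : ℕ,
        Pool.Agent.Run7.h316.EQ.Rare S c (Bad2 lm mu D)) → Usually L Ω S c := by
    intro L Ω S c hR lm mu hL n κ _ F hF lam hlam Γ hΓ ε hε
    obtain ⟨D, hD⟩ := exists_bound F hF lam hlam Γ hΓ
    obtain ⟨M₀, h1⟩ := hR lm mu hL D ε hε
    refine ⟨M₀, fun M hM => le_trans ?_ (h1 M hM)⟩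
    refine Nat.cast_le.2 (Set.ncard_le_ncard ?_ ((S M).finite_toSet.subset fun w hw => hw.1))
    rintro w ⟨hw1, hw2⟩
    exact ⟨hw1, fun hgood => hw2 (hD _ _ hgood)⟩
  exact ⟨key.1.imp (hconv _), key.2.imp (hconv _)⟩

end Pool.Agent.Results.MP_e573c6_ag.PrimeParameters
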