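import Pool.Agent.Run7.h972.AW.Base
import Pool.Agent.N327.OR.Freq
import Pool.Agent.Results.MP_e573c6_ag.RandomOrbits

/-!
# MP_e573c6_ag: Zilber-Pink for families of curves in `Y(1)^n` at algebraic parameters of all degrees, along
random orbits of affine maps

The families `F`, the members `X_t = member F lam t ⊂ Y(1)^n`, and the property `ZilberPink Γ X_t` (only
finitely many points of `X_t` are on special subvarieties of codimension at least two, and each proper
special subvariety contains only finitely many points of `X_t`) are those of the starting file
`FamiliesAlmostAllParameters`: one-parameter families of curves, not necessarily isotrivial, of any genus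
and any degree, which tend to the cusp `(∞, ..., ∞)` for `t → ∞` in general position (`GoodOrigin F`).

`Controlled F lam Γ m u` (starting file `RandomOrbits`) means: the members `X_t` satisfy `ZilberPink` for all
algebraic numbers `t` of any degree `d ≥ 1` which are roots of some polynomial `f` with integral coefficients,
of degree `d`, whose leading coefficient is a multiple of `m`, and whose next coefficient divides a power
of `u`. The other coefficients of `f` are arbitrary.

The starting result `RandomOrbits` is about the random orbit of one vector `v ≠ 0` under matrices of
determinant one which generate `SL_r(ℤ/q)` for all `q` prime to some `q₀`. Here the maps are affine and need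
not be invertible, and there is one set of times for all starting vectors.

Let `x ↦ A_l x + b_l`, `l ≤ m`, be a finite family of affine maps of `ℤ^r`, `r ≥ 2` (`AffineWalk`), which for
all `q` prime to some `M` are permutations of `(ℤ/q)^r` and generate a transitive group. The determinants of
the `A_l` are arbitrary nonzero integers. For instance: random walks on the lattice `ℤ^r` (for `A_l = 1`), or
`x ↦ 10 x + b_l` (the coordinates are random decimal numbers). For independent and uniformly distributed
indices `w(0), w(1), …` let `c_0 = v`, `c_(k+1) = A_(w k) c_k + b_(w k)`.

**Theorem.** Let `i ≠ j` be two coordinates. For almost every word `w` there is one set `E` of times of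
natural density zero, such that for **all** starting vectors `v`, **all** families `F`, `lam` and all finite
sets `Γ` of algebraic numbers `Controlled F lam Γ (c_k(i)) (c_k(j))` is true for all but finitely many times
`k ∉ E`.

So `E` does not depend on `v`, the family, the number `n` of the factors, the degrees of the curves, of the
`lam_i` and of `t`, or on `Γ`. In particular (`r = δ + 1`): for all but finitely many `k ∉ E` and all
algebraic numbers `t` of degree `δ` with `c_k(0) + c_k(1) t + ... + c_k(δ) t^δ = 0` the Zilber-Pink
conjecture holds for `X_t`.

The proof: `X_t` satisfies `ZilberPink` if a large prime divides the leading coefficient and not the next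
one (`exists_bound`, starting file `RandomOrbits`), and the vectors without such a prime form a pronull set.
By the ergodic theorem for random walks on finite groups (starting library, `Pool.Agent.N24.RW`), applied to
the group of affine permutations of `(ℤ/q)^r`, the random orbits visit a pronull set only at times of
density zero (`Run7.h972.AW`).
-/

set_option autoImplicit false

namespace Pool.Agent.Results.MP_e573c6_ag.RandomAffineOrbits

open MeasureTheory Filter Topology
open Pool.Agent.N24.RW (words)
open Pool.Agent.N676.OR (DensityZero)
open Pool.Agent.Results.MP_e573c6_ag.FamiliesAlmostAllParameters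
open Pool.Agent.Results.MP_e573c6_ag.RandomOrbits (Controlled exists_bound)
open Run7.h972.AW

theorem result {ι : Type} [Fintype ι] [DecidableEq ι] (i j : ι) (hij : i ≠ j) (W : AffineWalk ι) :
    ∀ᵐ w ∂(words W.m), ∃ E : Set ℕ, DensityZero E ∧
      ∀ (v : ι → ℤ) (n : ℕ) (κ : Type) [Finite κ]
        (F : κ → MvPolynomial (Fin n × Bool) (Polynomial (algebraicClosure ℚ ℂ))), GoodOrigin F →
        ∀ lam : Fin n → Polynomial (algebraicClosure ℚ ℂ), (∀ l, 0 < (lam l).natDegree) →
        ∀ Γ : Finset ℂ, (∀ γ ∈ Γ, IsAlgebraic ℚ γ) →
          {k : ℕ | k ∉ E ∧ ¬ Controlled F lam (Γ : Set ℂ) (aorb W v w k i) (aorb W v w k j)}.Finite := by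
  filter_upwards [one_set W (κ := ℕ)
    (fun D => {c : ι → ℤ | ¬ ∃ p : ℕ, p.Prime ∧ D < p ∧ (p : ℤ) ∣ c i ∧ ¬ (p : ℤ) ∣ c j})
    (fun D => Pool.Agent.N327.OR.pronull hij D)] with w hw
  obtain ⟨E, hE, h1⟩ := hw
  refine ⟨E, hE, fun v n κ _ F hF lam hlam Γ hΓ => ?_⟩
  obtain ⟨D, hD⟩ := exists_bound F hF lam hlam Γ hΓ
  refine (h1 v D).subset ?_
  rintro k ⟨hk, hk'⟩
  exact ⟨hk, fun hp => hk' (hD _ _ hp)⟩

end Pool.Agent.Results.MP_e573c6_ag.RandomAffineOrbits
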