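import Pool.Agent.Run7.h383.RS.Master
import Pool.Agent.Run7.h866.ZP.Sum

/-!
# MP_e573c6_ag: one-parameter families of curves in products of modular curves with four degenerate
members: no atypical points on all but finitely many members whose parameter is a sum of elements of
a finitely generated multiplicative group

The Shimura variety `Y(1)^n` is identified with `ℂ^n` by the elliptic modular function
`jj = j = E₄³ / Δ`. The Shimura varieties are the products of `n` modular curves of any levels, and
their images in `Y(1)^n`; `n` is arbitrary.

**Families** (as in the starting file `CurveFamilies`). Let `K ⊂ ℂ` be a countable field. We consider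
algebraic families `X_t` of curves in `Y(1)^n` with one parameter `t`, given by
* a family `B_t ⊆ P^N` of projective algebraic curves, defined by forms `G k` with coefficients in
  `K[t]`,
* quotients `f_i = A_i / B_i` of forms of the same degree `δ_i` with coefficients in `K[t]`,
* functions `s_i` integral over `K[j]`, `R_i (s_i, j) = 0` with `R_i` monic in the first variable
  (level one: `R_i = S - J`, `s_i = j`; in general modular functions of any level without poles
  in the upper half plane), and polynomials `c_i ∈ K[t]`:
`X_t = {x | ∃ y ∈ B_t, ∃ s, ∀ i, R_i (s_i, x_i) = 0, c_i (t) s_i = A_i (y) / B_i (y)}`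
(`scaledImage`), the image of a family of curves in a product of modular curves.

The family degenerates at the algebraic values `t = α_1, …, α_M` of the parameter in the
following sense:
* no point of `B_{α_l}` lies on two of the divisors of the `f_i` (at `t = α_l`) (`InGeneralPosition`),
  and
* the `c_i` have zeros at `α_l`, of orders `e_{l i} > 0`, and these orders are independent in pairs:
  `q e_{l i} e_{l j} e_{l' i} e_{l' j}` is not a square for `l ≠ l'`, `i ≠ j`, `1 ≤ q ≤ T^8`, where
  `T` bounds the degrees of the `R_i` (`T = 1` for level one).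

**Parameters.** Let `G` be a finitely generated group of nonzero algebraic numbers, and let
`b, a_1, …, a_q`, `q ≥ 1`, be algebraic numbers. The parameters are the numbers
`t = b + a_1 u_1 + … + a_q u_q`, `u_1, …, u_q ∈ G` (`Sums`), for instance the numbers
`± 2^k 3^l ± 5^m`, or the sums of `q` units of a number field.

**Theorem.** Suppose that `M ≥ 4` and that no `α_l` is equal to a proper partial sum
`b + ∑_{i ∈ J} a_i u_i`, `J ≠ {1, …, q}`, `u_i ∈ G` (`IsPartialSum`). Then for all but finitely many
`t` of the form above the set `X_t` has no point at all on special subvarieties of codimension at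
least two, strongly special or not, `atyp(X_t) = ∅`. The constant coordinates of the special
subvarieties can be special points or integral over the ring generated by any given finite set
`Γ` of numbers algebraic over `K`.

For `q = 1` the condition on `α_l` is `α_l ≠ b`. In general the condition is necessary for the
arithmetic of the proof: if `α_l` is a partial sum then there can be infinitely many parameters `t` for
which `t - α_l` is an element of `G`.

No large Galois orbits hypothesis is used, and neither the number of the degenerate members nor the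
exponents depend on `n`, `q`, the group or its field. The starting file `CurveFamilies` (for rational
`α_l`) needs `4 + 2 d` degenerate members for the numbers `t` of degree at most `d` over `ℚ`.

**The proof.** If `α` is not a proper partial sum then for every finite set `W` of numbers algebraic over
`K` there are only finitely many `t` of this form for which `t - α` is invertible in the ring
generated by `W` and `t` (`Pool.Agent.Run7.h866.ZP.hits_sums`, from the unit equation in several
terms). For all other `t` there is a valuation ring of `ℂ` which contains `W`, for which `t` is near to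
`α`. With these valuation rings for four of the `α_l` we apply the criterion at four places
`Pool.Agent.TH526.ZL.criterionCurveV` of the starting library (`Pool.Agent.Run7.h383.RS.Master`).
-/

set_option autoImplicit false

namespace Pool.Agent.Results.MP_e573c6_ag.SumsOfUnits

open MvPolynomial
open Pool.Agent.Y152.RP.Fam (SpecialVariety InGeneralPosition scaledImage IndependentExponents)

/-- The points of `X` on special subvarieties of codimension at least two (with constant coordinates
which are special points or integral over `Γ`). -/
def atyp (Γ : Finset ℂ) {n : ℕ} (X : Set (Fin n → ℂ)) : Set (Fin n → ℂ) :=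
  {x | x ∈ X ∧ ∃ (r : ℕ) (Z : SpecialVariety (algebraMap (Algebra.adjoin ℤ (Γ : Set ℂ)) ℂ) n r),
    r + 2 ≤ n ∧ x ∈ Z.locus}

/-- The order of the zero of the polynomial `p` at the complex number `z`. -/
noncomputable def orderAt {K : Subfield ℂ} (p : Polynomial K) (z : ℂ) : ℕ :=
  (p.map (algebraMap K ℂ)).rootMultiplicity z

/-- The sums `b + ∑ a i * u i`, where the `u i` are in the multiplicative group generated by `U`. -/
def Sums {q : ℕ} (b : ℂ) (a : Fin q → ℂ) (U : Finset ℂˣ) : Set ℂ :=
  {t | ∃ u : Fin q → ℂˣ, (∀ i, u i ∈ Subgroup.closure (U : Set ℂˣ)) ∧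
    t = b + ∑ i, a i * (u i : ℂ)}

/-- `z` is a proper partial sum `b + ∑ i ∈ J, a i * u i`, where the `u i` are in the multiplicative
group generated by `U`. -/
def IsPartialSum {q : ℕ} (b : ℂ) (a : Fin q → ℂ) (U : Finset ℂˣ) (z : ℂ) : Prop :=
  ∃ J : Finset (Fin q), J ≠ Finset.univ ∧ ∃ u : Fin q → ℂˣ,
    (∀ i, u i ∈ Subgroup.closure (U : Set ℂˣ)) ∧ z = b + ∑ i ∈ J, a i * (u i : ℂ)

/-- One-parameter families of curves which degenerate at four algebraic parameters, with orders
independent in pairs: all but finitely many of the members whose parameters are sums of elements of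
a finitely generated group of algebraic numbers have no atypical points. -/
theorem result (K : Subfield ℂ) [Countable K] (κ : Type) [Finite κ] (N n M T : ℕ)
    (G : κ → MvPolynomial (Fin (N + 1)) (Polynomial K)) (hG : ∀ k, ∃ e, (G k).IsHomogeneous e)
    (A B : Fin n → MvPolynomial (Fin (N + 1)) (Polynomial K)) (δ : Fin n → ℕ)
    (hA : ∀ i, (A i).IsHomogeneous (δ i)) (hB : ∀ i, (B i).IsHomogeneous (δ i))
    (R : Fin n → Polynomial (Polynomial K)) (hR : ∀ i, (R i).Monic)
    (hT : ∀ i u w, ((R i).coeff u).coeff w ≠ 0 → u ≤ T ∧ w ≤ T)
    (c : Fin n → Polynomial K) (α : Fin M → ℂ) (hα : ∀ l, IsAlgebraic ℚ (α l))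
    (hind : IndependentExponents T fun l i => orderAt (c i) (α l))
    (hpos : ∀ l, InGeneralPosition (α l) 1 G A B) (Γ : Finset ℂ)
    (hΓ : ∀ γ ∈ Γ, IsAlgebraic K γ) (hM : 4 ≤ M)
    (q : ℕ) (hq : 0 < q) (b : ℂ) (a : Fin q → ℂ) (hb : IsAlgebraic ℚ b)
    (ha : ∀ i, IsAlgebraic ℚ (a i)) (U : Finset ℂˣ) (hU : ∀ u ∈ U, IsAlgebraic ℚ (u : ℂ))
    (hsum : ∀ l, ¬ IsPartialSum b a U (α l)) :
    {t : ℂ | t ∈ Sums b a U ∧ atyp Γ (scaledImage t G A B R c) ≠ ∅}.Finite := by
  have hmem : ∀ u ∈ Subgroup.closure (U : Set ℂˣ), (u : ℂ) ∈ algebraicClosure ℚ ℂ := by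
    intro u hu
    induction hu using Subgroup.closure_induction with
    | mem x hx => exact mem_algebraicClosure_iff.2 (hU x hx)
    | one => exact one_mem _
    | mul x y _ _ hx hy =>
      rw [Units.val_mul]
      exact mul_mem hx hy
    | inv x _ hx =>
      rw [Units.val_inv_eq_inv_val]
      exact inv_mem hx
  have hP : ∀ t ∈ Sums b a U, IsAlgebraic K t := by
    rintro t ⟨u, hu, rfl⟩
    exact (mem_algebraicClosure_iff.1 (add_mem (mem_algebraicClosure_iff.2 hb)
      (sum_mem fun i _ => mul_mem (mem_algebraicClosure_iff.2 (ha i)) (hmem _ (hu i))))).tower_top K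
  have h := Run7.h383.RS.curves K κ N n M T G hG A B δ hA hB R hR hT c α
    (fun l => (hα l).tower_top K) hind hpos Γ hΓ (Sums b a U) hP 1 le_rfl hM fun I hI => by
      obtain ⟨l, hl⟩ := Finset.card_pos.1 (show 0 < I.card by omega)
      refine ⟨{α l}, fun z hz => ⟨l, hl, (Finset.mem_singleton.1 hz).symm⟩, ?_⟩
      refine Pool.Agent.Run7.h866.ZP.hits_sums hq b a hb ha U hU (α l) (hα l) ?_
      intro J hJ u hu he
      exact hsum l ⟨J, hJ, u, hu, he⟩
  refine h.subset ?_
  rintro t ⟨ht, hne⟩
  obtain ⟨x, hx, r', Z, hr, hxZ⟩ := Set.nonempty_iff_ne_empty.2 hne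
  exact ⟨ht, r', Z, hr, x, hx, hxZ⟩

end Pool.Agent.Results.MP_e573c6_ag.SumsOfUnits
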